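import Pool.Agent.Helper354.CWidthMain

set_option autoImplicit false

/-!
# Commutator width of free soluble groups (MP_178833_al): partial results

`F` is the free group on `k` generators, `S = F / F⁽ᵈ⁾` the free soluble group of derived
length `d`.
-/

namespace Pool.Agent.Results.MP_178833_al.SquareTrick

open Subgroup
open scoped commutatorElement

/-- Let `F` be the free group of rank `k`.

(1) For all `d` and all odd `m`, every element of the derived group of the quotient of
`F / F⁽ᵈ⁾` by the subgroup generated by the `m`-th powers of the elements of `F⁽³⁾` is a product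
of `k² + 3kd` commutators.

(2) For all `j` and all `g` in the derived group of `F`, the power `g ^ (2 ^ j)` is, in
`F / F⁽ʲ⁺³⁾`, a product of `2 ^ j (k² + 6k + 1)` commutators. For `j = 1`: in the free soluble
group of derived length `4`, the square of every element of the derived group is a product of
`2 (k² + 6k + 1)` commutators.

(3) For all `i`, the commutator width of `F / F⁽ⁱ⁺²⁾` is finite if and only if the commutator
width of `F / [D, F] D²` is finite, where `D = F⁽ⁱ⁺¹⁾` and `D²` is the subgroup generated by the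
squares of the elements of `D`. -/
theorem result (k : ℕ) :
    (∀ d m : ℕ, Odd m → ∀ g : FreeGroup (Fin k), g ∈ derivedSeries (FreeGroup (Fin k)) 1 →
      ∃ a b : Fin (k * k + 3 * k * d) → FreeGroup (Fin k),
        g * ((List.ofFn (fun i => a i * b i * (a i)⁻¹ * (b i)⁻¹)).prod)⁻¹ ∈
          derivedSeries (FreeGroup (Fin k)) d ⊔
            closure {x | ∃ y ∈ derivedSeries (FreeGroup (Fin k)) 3, x = y ^ m}) ∧
    (∀ j : ℕ, ∀ g : FreeGroup (Fin k), g ∈ derivedSeries (FreeGroup (Fin k)) 1 →
      ∃ a b : Fin (2 ^ j * (k * k + 6 * k + 1)) → FreeGroup (Fin k),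
        g ^ (2 ^ j) * ((List.ofFn (fun i => a i * b i * (a i)⁻¹ * (b i)⁻¹)).prod)⁻¹ ∈
          derivedSeries (FreeGroup (Fin k)) (j + 3)) ∧
    (∀ i : ℕ,
      (∃ N : ℕ, ∀ g : FreeGroup (Fin k), g ∈ derivedSeries (FreeGroup (Fin k)) 1 →
        ∃ a b : Fin N → FreeGroup (Fin k),
          g * ((List.ofFn (fun i => a i * b i * (a i)⁻¹ * (b i)⁻¹)).prod)⁻¹ ∈
            derivedSeries (FreeGroup (Fin k)) (i + 2)) ↔
      (∃ N : ℕ, ∀ g : FreeGroup (Fin k), g ∈ derivedSeries (FreeGroup (Fin k)) 1 →
        ∃ a b : Fin N → FreeGroup (Fin k),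
          g * ((List.ofFn (fun i => a i * b i * (a i)⁻¹ * (b i)⁻¹)).prod)⁻¹ ∈
            ⁅derivedSeries (FreeGroup (Fin k)) (i + 1), (⊤ : Subgroup (FreeGroup (Fin k)))⁆ ⊔
              closure {x | ∃ y ∈ derivedSeries (FreeGroup (Fin k)) (i + 1), x = y ^ 2})) := by
  have hx : closure (Set.range (FreeGroup.of : Fin k → FreeGroup (Fin k))) = ⊤ :=
    FreeGroup.closure_range_of (Fin k)
  refine ⟨?_, ?_, ?_⟩
  · intro d m hm g hg
    haveI := Pool.Agent.Helper354.CWidth.closure_pow_normal
      (derivedSeries (FreeGroup (Fin k)) 3) m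
    exact Pool.Agent.Helper354.CWidth.format
      (Pool.Agent.Helper354.CWidth.odd_quot _ hx d m hm g hg)
  · intro j g hg
    exact Pool.Agent.Helper354.CWidth.format
      (Pool.Agent.Helper354.CWidth.pow_step _ hx j hg)
  · intro i
    haveI := Pool.Agent.Helper354.CWidth.closure_pow_normal
      (derivedSeries (FreeGroup (Fin k)) (i + 1)) 2
    constructor
    · rintro ⟨N, h⟩
      refine ⟨N, fun g hg => ?_⟩
      obtain ⟨a, b, hab⟩ := h g hg
      refine ⟨a, b, mem_sup_left ?_⟩
      have hle : derivedSeries (FreeGroup (Fin k)) (i + 2) ≤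
          ⁅derivedSeries (FreeGroup (Fin k)) (i + 1), (⊤ : Subgroup (FreeGroup (Fin k)))⁆ :=
        commutator_mono le_rfl le_top
      exact hle hab
    · rintro ⟨N, h⟩
      refine ⟨N + 3 * k, fun g hg => ?_⟩
      exact Pool.Agent.Helper354.CWidth.format
        (Pool.Agent.Helper354.CWidth.reduction _ hx i N
          (fun g hg => Pool.Agent.Helper354.CWidth.unformat (h g hg)) g hg)

end Pool.Agent.Results.MP_178833_al.SquareTrick
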